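import Pool.Agent.V1153.OD.Tor

/-!
The final statements.
-/

set_option autoImplicit false

namespace Pool.Agent.V1153.OD

open MvPolynomial Set Filter Topology Pool.Agent.V1153.IT
open scoped LinearAlgebra.Projectivization
open Pool.Agent.V1153.UG (GmBdd VanGm GmThin DegLe)
open Pool.Agent.TH143.EL (HolMap Rep)

variable {n k : ℕ}

/-- Every holomorphic map from a one-dimensional complex torus to the projective algebraic set given
by the forms in `E` is constant. -/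
def TorusConst (E : Set (MvPolynomial (Fin (n + 1)) ℂ)) : Prop :=
  ∀ ω₁ ω₂ : ℂ, LinearIndependent ℝ ![ω₁, ω₂] → ∀ t : ℂ → ℙ ℂ (Fin (n + 1) → ℂ),
    HolMap t → (∀ z, t (z + ω₁) = t z) → (∀ z, t (z + ω₂) = t z) →
      (∀ z, ∀ F ∈ E, eval (t z).rep F = 0) → ∀ z w, t z = t w

theorem smul_pow' (q : ℂˣ) (z : Fin k → ℂ) (m : ℕ) :
    ((MulAction.toPerm q : Equiv.Perm (Fin k → ℂ)) ^ m) z = ((q : ℂ) ^ m) • z := by
  induction m with
  | zero => simp
  | succ m ih =>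
    rw [pow_succ', Equiv.Perm.mul_apply, ih, MulAction.toPerm_apply, Units.smul_def, smul_smul,
      pow_succ']

/-- multiplications on `ℂ^k` -/
theorem mul_constK {f : (Fin k → ℂ) → Fin (n + 1) → ℂ} (hf : ∀ j, Differentiable ℂ fun z => f z j)
    (hf0 : ∀ z, f z ≠ 0) {q : ℂ} (hq : ∀ m : ℕ, 0 < m → q ^ m ≠ 1)
    (h : ∀ z, Par (f (q • z)) (f z)) (z w : Fin k → ℂ) : ∃ c : ℂ, f z = c • f w := by
  have key : ∀ z : Fin k → ℂ, Par (f z) (f 0) := by
    intro z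
    have h1 := mul_const (f := fun t : ℂ => f (t • z)) (fun j => (hf j).comp
      (differentiable_id.smul_const z)) (fun t => hf0 _) hq (fun t => by
        have h2 := h (t • z)
        rw [smul_smul] at h2
        exact h2) 1 0
    simp only [one_smul, zero_smul] at h1
    exact h1
  obtain ⟨c, hc⟩ := (par_iff (hf0 0)).1 (key z)
  obtain ⟨c', hc'⟩ := (par_iff (hf0 0)).1 (key w)
  have hc0 : c' ≠ 0 := by
    rintro rfl
    rw [zero_smul] at hc'
    exact hf0 w hc'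
  refine ⟨c * c'⁻¹, ?_⟩
  rw [hc', hc, smul_smul, mul_assoc, inv_mul_cancel₀ hc0, mul_one]

/-- maps from the plane which factor through a torus -/
theorem torus_const {E : Set (MvPolynomial (Fin (n + 1)) ℂ)} (hE : ∀ F ∈ E, ∃ a, F.IsHomogeneous a)
    (hT : TorusConst E) {f : (Fin 1 → ℂ) → Fin (n + 1) → ℂ}
    (hf : ∀ j, Differentiable ℂ fun z => f z j) (hf0 : ∀ z, f z ≠ 0)
    (hfE : ∀ z, ∀ F ∈ E, eval (f z) F = 0) {ω₁ ω₂ : ℂ} (hω : LinearIndependent ℝ ![ω₁, ω₂])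
    {m₁ m₂ : ℕ} (h1 : 0 < m₁) (h2 : 0 < m₂)
    (hp1 : ∀ z, Par (f (z + (m₁ : ℝ) • fun _ => ω₁)) (f z))
    (hp2 : ∀ z, Par (f (z + (m₂ : ℝ) • fun _ => ω₂)) (f z)) (z w : Fin 1 → ℂ) :
    ∃ c : ℂ, f z = c • f w := by
  let t : ℂ → ℙ ℂ (Fin (n + 1) → ℂ) := fun z => Projectivization.mk ℂ (f fun _ => z) (hf0 _)
  have hrep : ∀ z, ∃ c : ℂ, c ≠ 0 ∧ (t z).rep = fun j => c * f (fun _ => z) j := by
    intro z
    obtain ⟨c, hc⟩ := Projectivization.exists_smul_eq_mk_rep ℂ (f fun _ => z) (hf0 _)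
    refine ⟨(c : ℂ), c.ne_zero, ?_⟩
    change (Projectivization.mk ℂ (f fun _ => z) (hf0 _)).rep = _
    rw [← hc]
    rfl
  have hper : ∀ {ω : ℂ} {m : ℕ}, (∀ z, Par (f (z + (m : ℝ) • fun _ => ω)) (f z)) →
      ∀ z, t (z + (m : ℝ) • ω) = t z := by
    intro ω m hp z
    have h3 := (par_iff (hf0 _)).1 (hp fun _ => z)
    obtain ⟨c, hc⟩ := h3
    refine (Projectivization.mk_eq_mk_iff' ℂ _ _ _ _).2 ⟨c, ?_⟩
    rw [← hc]
    rfl
  have hind : LinearIndependent ℝ ![(m₁ : ℝ) • ω₁, (m₂ : ℝ) • ω₂] := by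
    have h3 := hω.units_smul ![Units.mk0 (m₁ : ℝ) (by positivity), Units.mk0 (m₂ : ℝ)
      (by positivity)]
    convert h3 using 1
    funext i
    fin_cases i <;> rfl
  have hol : HolMap t := by
    intro a
    refine ⟨fun j z => f (fun _ => z) j, fun j => ?_, Filter.Eventually.of_forall fun z =>
      ⟨hf0 _, rfl⟩⟩
    have h3 : Differentiable ℂ fun z : ℂ => f (fun _ => z) j :=
      (hf j).comp (differentiable_pi.2 fun _ => differentiable_id)
    exact h3.analyticAt a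
  have hconst := hT _ _ hind t hol (hper hp1) (hper hp2) (fun z F hF => by
    obtain ⟨c, -, hc⟩ := hrep z
    obtain ⟨a, ha⟩ := hE F hF
    rw [hc, UG.eval_homog ha, hfE _ F hF, mul_zero]) (z 0) (w 0)
  obtain ⟨c, hc⟩ := (Projectivization.mk_eq_mk_iff' ℂ _ _ _ _).1 hconst
  refine ⟨c, ?_⟩
  have h3 : (fun _ => z 0) = z := funext fun i => by rw [Subsingleton.elim i 0]
  have h4 : (fun _ => w 0) = w := funext fun i => by rw [Subsingleton.elim i 0]
  rw [h3, h4] at hc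
  exact hc.symm

/-- The sequences of the values of `f` along the orbits of translations and multiplications. -/
theorem final (n D s r e : ℕ) : ∃ N : ℕ, ∀ (E : Set (MvPolynomial (Fin (n + 1)) ℂ))
    (Q : MvPolynomial (Fin (n + 1)) ℂ), DegLe D E Q →
      ((∀ P, ¬ GmBdd (Ideal.span E) Q N P) ∨ TorusConst E) →
      (∀ (k : ℕ) (f : (Fin k → ℂ) → Fin (n + 1) → ℂ), HolOff E Q f →
        (∀ T : Equiv.Perm (Fin k → ℂ), Differentiable ℂ T → OrbOff s r e Q T f →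
          ∃ m, 0 < m ∧ m ≤ N ∧ ∀ z, ∃ c : ℂ, f ((T ^ m) z) = c • f z) ∧
        (∀ ω : Fin (2 * k) → Fin k → ℂ, LinearIndependent ℝ ω →
          (∀ i, OrbOff s r e Q (Equiv.addRight (ω i)) f) →
            ∃ L : AddSubgroup (Fin k → ℂ), DiscreteTopology L ∧
              Submodule.span ℝ (L : Set (Fin k → ℂ)) = ⊤ ∧
                ∀ z, ∀ l ∈ L, ∃ c : ℂ, f (z + l) = c • f z) ∧
        (∀ q : ℂˣ, (∀ m : ℕ, 0 < m → q ^ m ≠ 1) → OrbOff s r e Q (MulAction.toPerm q) f →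
          ∀ z w, ∃ c : ℂ, f z = c • f w)) ∧
      (TorusConst E → ∀ f : (Fin 1 → ℂ) → Fin (n + 1) → ℂ, HolOff E Q f →
        ∀ ω₁ ω₂ : ℂ, LinearIndependent ℝ ![ω₁, ω₂] →
          OrbOff s r e Q (Equiv.addRight fun _ => ω₁) f →
          OrbOff s r e Q (Equiv.addRight fun _ => ω₂) f → ∀ z w, ∃ c : ℂ, f z = c • f w) := by
  obtain ⟨N, hN⟩ := orb_period n D s r e
  refine ⟨N, fun E Q hE hyp => ?_⟩
  have hEh : ∀ F ∈ E, ∃ a, F.IsHomogeneous a := fun F hF => by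
    obtain ⟨a, -, ha⟩ := hE.eqs F hF
    exact ⟨a, ha⟩
  have hno : ∀ P, ¬ GmBdd (Ideal.span E) Q N P := by
    rcases hyp with h1 | h1
    · exact h1
    · exact fun P => no_gm hEh h1 Q N P
  have hper : ∀ (k : ℕ) (f : (Fin k → ℂ) → Fin (n + 1) → ℂ), HolOff E Q f →
      ∀ T : Equiv.Perm (Fin k → ℂ), Differentiable ℂ T → OrbOff s r e Q T f →
        ∃ m, 0 < m ∧ m ≤ N ∧ ∀ z, Par (f ((T ^ m) z)) (f z) := by
    intro k f hf T hT horb
    rcases hN E Q 1 hE ⟨0, Nat.zero_le _, isHomogeneous_one _ _⟩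
      (fun P hP => absurd hP (hno P)) k f hf T hT horb with h1 | h1
    · have h2 := h1 0
      rw [map_one] at h2
      exact absurd h2 one_ne_zero
    · exact h1
  have hshift : ∀ (k : ℕ) (f : (Fin k → ℂ) → Fin (n + 1) → ℂ), HolOff E Q f → ∀ ω,
      OrbOff s r e Q (Equiv.addRight ω) f →
        ∃ m : ℕ, 0 < m ∧ ∀ z, Par (f (z + (m : ℝ) • ω)) (f z) := by
    intro k f hf ω horb
    obtain ⟨m, hm, -, h1⟩ := hper k f hf _ (by
      change Differentiable ℂ fun z => z + ω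
      fun_prop) horb
    refine ⟨m, hm, fun z => ?_⟩
    rw [← shift_pow]
    exact h1 z
  refine ⟨fun k f hf => ⟨fun T hT horb => ?_, fun ω hω horb => ?_, fun q hq horb => ?_⟩,
    fun hT f hf ω₁ ω₂ hω h1 h2 => ?_⟩
  · obtain ⟨m, hm, hmN, h1⟩ := hper k f hf T hT horb
    exact ⟨m, hm, hmN, fun z => (par_iff (hf.ne z)).1 (h1 z)⟩
  · exact lattice_of hf.ne hω fun i => hshift k f hf (ω i) (horb i)
  · obtain ⟨m, hm, -, h1⟩ := hper k f hf _ (by
      change Differentiable ℂ fun z => (q : ℂ) • z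
      fun_prop) horb
    refine mul_constK hf.diff hf.ne (q := (q : ℂ) ^ m) (fun i hi h2 => ?_) (fun z => ?_)
    · apply hq (m * i) (Nat.mul_pos hm hi)
      apply Units.ext
      rw [Units.val_pow_eq_pow_val, pow_mul, h2, Units.val_one]
    · rw [← smul_pow']
      exact h1 z
  · obtain ⟨m₁, hm1, hp1⟩ := hshift 1 f hf _ h1
    obtain ⟨m₂, hm2, hp2⟩ := hshift 1 f hf _ h2
    exact torus_const hEh hT hf.diff hf.ne hf.mem hω hm1 hm2 hp1 hp2

end Pool.Agent.V1153.OD
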