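import Pool.Agent.V1153.IT.ArT

/-!
Holomorphic maps whose values along the orbits of an automorphism are given by iterated recurrences.
-/

set_option autoImplicit false

namespace Pool.Agent.V1153.OD

open MvPolynomial Set Pool.Agent.V1153.IT
open Pool.Agent.V1153.UG (GmBdd VanGm GmThin DegLe)
open Pool.Agent.Y377.ST (ptsOff)

variable {n k : ℕ}

/-- `f z` and `f w` are homogeneous coordinates of the same point -/
def Par (x y : Fin (n + 1) → ℂ) : Prop := ∀ i j, x i * y j = x j * y i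

/-- For each point `z` the points with the homogeneous coordinates `f (T^h z)`, `h ∈ ℤ`, are given by
iterated recurrences of type `(s, r, e)`. -/
def OrbOff (s r e : ℕ) (Q : MvPolynomial (Fin (n + 1)) ℂ) (T : Equiv.Perm (Fin k → ℂ))
    (f : (Fin k → ℂ) → Fin (n + 1) → ℂ) : Prop :=
  ∀ z, ∃ γ : Multiplicative ℤ → ℂ, (∀ h, γ h ≠ 0) ∧
    IterOff s r e Q fun h j => γ h * f ((T ^ (Multiplicative.toAdd h)) z) j

/-- the identity theorem on lines -/
theorem dense_ne {D : (Fin k → ℂ) → ℂ} (hD : Differentiable ℂ D) (h : ∃ z, D z ≠ 0) :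
    Dense {z | D z ≠ 0} := by
  obtain ⟨w, hw⟩ := h
  rw [dense_iff_inter_open]
  intro U hU ⟨z, hz⟩
  by_contra hcon
  have h0 : ∀ x ∈ U, D x = 0 := by
    intro x hx
    by_contra h1
    exact hcon ⟨x, hx, h1⟩
  let φ : ℂ → ℂ := fun t => D (z + t • (w - z))
  have hφ : Differentiable ℂ φ := hD.comp ((differentiable_const z).add
    (differentiable_id.smul_const (w - z)))
  have h1 : ∀ᶠ t in nhds (0 : ℂ), φ t = 0 := by
    have h2 : Continuous fun t : ℂ => z + t • (w - z) := by fun_prop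
    have h3 : (fun t : ℂ => z + t • (w - z)) ⁻¹' U ∈ nhds (0 : ℂ) := by
      apply (hU.preimage h2).mem_nhds
      simpa using hz
    filter_upwards [h3] with t ht
    exact h0 _ ht
  have h2 : AnalyticOnNhd ℂ φ univ := fun x _ => hφ.analyticAt x
  have h3 := h2.eqOn_zero_of_preconnected_of_eventuallyEq_zero isPreconnected_univ (mem_univ 0) h1
    (mem_univ 1)
  apply hw
  have h4 : φ 1 = D w := by
    change D (z + (1 : ℂ) • (w - z)) = D w
    congr 1
    rw [one_smul, add_sub_cancel]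
  rw [← h4]
  exact h3

/-- finitely many nonzero holomorphic functions have a common point where they do not vanish -/
theorem common_ne {ι : Type} [Finite ι] {D : ι → (Fin k → ℂ) → ℂ}
    (hD : ∀ i, Differentiable ℂ (D i)) (h : ∀ i, ∃ z, D i z ≠ 0) : ∃ z, ∀ i, D i z ≠ 0 := by
  have h1 : ∀ i, IsOpen {z | D i z ≠ 0} := fun i => isOpen_ne_fun (hD i).continuous
    continuous_const
  have h2 : Dense (⋂ i, {z | D i z ≠ 0}) := dense_iInter_of_isOpen h1 fun i => dense_ne (hD i) (h i)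
  obtain ⟨z, hz⟩ := h2.nonempty
  exact ⟨z, fun i => mem_iInter.1 hz i⟩

theorem pow_diff {T : Equiv.Perm (Fin k → ℂ)} (hT : Differentiable ℂ T) (i : ℕ) :
    Differentiable ℂ fun z => (T ^ i) z := by
  induction i with
  | zero =>
    simp only [pow_zero, Equiv.Perm.coe_one]
    exact differentiable_id
  | succ i ih =>
    have h1 : (fun z => (T ^ (i + 1)) z) = fun z => T ((T ^ i) z) := by
      funext z
      rw [pow_succ']
      rfl
    rw [h1]
    exact hT.comp ih

theorem par_symm {x y : Fin (n + 1) → ℂ} (h : Par x y) : Par y x := fun i j => by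
  linear_combination h j i

theorem diff_evalE {F : (Fin k → ℂ) → Fin (n + 1) → ℂ} (hF : ∀ j, Differentiable ℂ fun z => F z j)
    (G : MvPolynomial (Fin (n + 1)) ℂ) : Differentiable ℂ fun z => eval (F z) G := by
  induction G using MvPolynomial.induction_on with
  | C a =>
    simp only [eval_C]
    exact differentiable_const a
  | add p q hp hq =>
    simp only [map_add]
    exact hp.add hq
  | mul_X p j hp =>
    simp only [map_mul, eval_X]
    exact hp.mul (hF j)

/-- many points give a lower bound for the number of points -/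
theorem encard_of_seq {H : Type} [Group H] {x : H → Fin (n + 1) → ℂ}
    {G : MvPolynomial (Fin (n + 1)) ℂ} {B : ℕ} (hs : ℕ → H) (h1 : ∀ i ≤ B, eval (x (hs i)) G ≠ 0)
    (h2 : ∀ i, x (hs i) ≠ 0)
    (h3 : ∀ i j, i ≤ B → j ≤ B → i ≠ j → ¬ Par (x (hs i)) (x (hs j))) :
    ¬ (ptsOff G x).encard ≤ (B : ℕ∞) := by
  classical
  intro hle
  let g : Fin (B + 1) → Projectivization ℂ (Fin (n + 1) → ℂ) := fun i =>
    Projectivization.mk ℂ (x (hs i)) (h2 i)
  have hg : Function.Injective g := by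
    intro i j hij
    by_contra hne
    refine h3 i j (by omega) (by omega) (fun h => hne (Fin.ext h)) ?_
    have h4 := (Projectivization.mk_eq_mk_iff' ℂ _ _ _ _).1 hij
    obtain ⟨a, ha⟩ := h4
    intro u v
    have h5 : a * x (hs j) u = x (hs i) u := congrFun ha u
    have h6 : a * x (hs j) v = x (hs i) v := congrFun ha v
    rw [← h5, ← h6]
    ring
  have h4 : Set.range g ⊆ ptsOff G x := by
    rintro _ ⟨i, rfl⟩
    refine ⟨hs i, h2 i, ?_, rfl⟩
    have h5 := h1 i (by omega)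
    rw [← MvPolynomial.coe_aeval_eq_eval] at h5
    exact h5
  have h5 : (Set.range g).encard = ((B + 1 : ℕ) : ℕ∞) := by
    rw [← Set.image_univ, hg.encard_image, Set.encard_univ]
    simp
  have h6 := (h5.symm.le.trans (Set.encard_le_encard h4)).trans hle
  have h7 : B + 1 ≤ B := by exact_mod_cast h6
  omega

/-- **The alternative on orbits.** -/
theorem orb_alt {Q G : MvPolynomial (Fin (n + 1)) ℂ} {s r e B : ℕ}
    {X : (Fin (n + 1) → ℂ) → Prop} (hX : ∀ c y, X y → X (fun j => c * y j))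
    (hB : ∀ x : Multiplicative ℤ → Fin (n + 1) → ℂ, (∀ h, X (x h)) →
      IterOff s r e Q x → (ptsOff G x).encard ≤ (B : ℕ∞))
    (hG : ∃ m, G.IsHomogeneous m) {T : Equiv.Perm (Fin k → ℂ)} (hT : Differentiable ℂ T)
    {f : (Fin k → ℂ) → Fin (n + 1) → ℂ} (hf : ∀ j, Differentiable ℂ fun z => f z j)
    (hf0 : ∀ z, f z ≠ 0) (hfX : ∀ z, X (f z)) (horb : OrbOff s r e Q T f) :
    (∀ z, eval (f z) G = 0) ∨ ∃ m, 0 < m ∧ m ≤ B ∧ ∀ z, Par (f ((T ^ m) z)) (f z) := by
  classical
  by_contra hcon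
  push Not at hcon
  obtain ⟨⟨z1, hz1⟩, hper⟩ := hcon
  have hcomp : ∀ (i : ℕ) j, Differentiable ℂ fun z => f ((T ^ i) z) j := fun i j =>
    (hf j).comp (pow_diff hT i)
  have hGd : ∀ i : ℕ, Differentiable ℂ fun z => eval (f ((T ^ i) z)) G := by
    intro i
    exact diff_evalE (hcomp i) G
  have hpair : ∀ p : {p : Fin (B + 1) × Fin (B + 1) // p.1 < p.2}, ∃ u v, ∃ z,
      f ((T ^ (p.1.1 : ℕ)) z) u * f ((T ^ (p.1.2 : ℕ)) z) v -
        f ((T ^ (p.1.1 : ℕ)) z) v * f ((T ^ (p.1.2 : ℕ)) z) u ≠ 0 := by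
    rintro ⟨⟨i, j⟩, hij⟩
    by_contra hc
    push Not at hc
    have hij' : (i : ℕ) < j := hij
    obtain ⟨z, hz⟩ := hper ((j : ℕ) - i) (by omega) (by omega)
    apply hz
    intro u v
    have h1 := hc u v ((T ^ (i : ℕ)).symm z)
    have h2 : (T ^ (i : ℕ)) ((T ^ (i : ℕ)).symm z) = z := Equiv.apply_symm_apply _ _
    have h3 : (T ^ (j : ℕ)) ((T ^ (i : ℕ)).symm z) = (T ^ ((j : ℕ) - i)) z := by
      have h4 : T ^ (j : ℕ) = T ^ ((j : ℕ) - i) * T ^ (i : ℕ) := by
        rw [← pow_add]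
        congr 1
        omega
      rw [h4, Equiv.Perm.mul_apply, h2]
    change f ((T ^ (i : ℕ)) _) u * f ((T ^ (j : ℕ)) _) v -
      f ((T ^ (i : ℕ)) _) v * f ((T ^ (j : ℕ)) _) u = 0 at h1
    rw [h2, h3] at h1
    linear_combination -h1
  choose u v hz using hpair
  let ι : Type := Fin (B + 1) ⊕ {p : Fin (B + 1) × Fin (B + 1) // p.1 < p.2}
  let D : ι → (Fin k → ℂ) → ℂ := fun t => match t with
    | Sum.inl i => fun z => eval (f ((T ^ (i : ℕ)) z)) G
    | Sum.inr p => fun z => f ((T ^ (p.1.1 : ℕ)) z) (u p) * f ((T ^ (p.1.2 : ℕ)) z) (v p) -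
        f ((T ^ (p.1.1 : ℕ)) z) (v p) * f ((T ^ (p.1.2 : ℕ)) z) (u p)
  obtain ⟨z0, hz0⟩ := common_ne (D := D) (fun t => by
    rcases t with i | p
    · exact hGd i
    · exact ((hcomp _ _).mul (hcomp _ _)).sub ((hcomp _ _).mul (hcomp _ _))) (fun t => by
    rcases t with i | p
    · refine ⟨(T ^ (i : ℕ)).symm z1, ?_⟩
      change eval (f ((T ^ (i : ℕ)) ((T ^ (i : ℕ)).symm z1))) G ≠ 0
      rw [Equiv.apply_symm_apply]
      exact hz1
    · exact hz p)
  obtain ⟨γ, hγ, hI⟩ := horb z0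
  obtain ⟨m, hm⟩ := hG
  have hpow : ∀ i : ℕ, (T ^ (Multiplicative.toAdd (Multiplicative.ofAdd (i : ℤ)))) z0 =
      (T ^ i) z0 := by
    intro i
    rw [toAdd_ofAdd, zpow_natCast]
  refine encard_of_seq (G := G) (B := B) (fun i => Multiplicative.ofAdd (i : ℤ)) ?_ ?_ ?_
    (hB _ (fun h => hX _ _ (hfX _)) hI)
  · intro i hi
    rw [UG.eval_homog hm, hpow]
    exact mul_ne_zero (pow_ne_zero _ (hγ _)) (hz0 (Sum.inl ⟨i, by omega⟩))
  · intro i h0
    apply hf0 ((T ^ (Multiplicative.toAdd (Multiplicative.ofAdd (i : ℤ)))) z0)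
    funext j
    exact (mul_eq_zero.1 (congrFun h0 j)).resolve_left (hγ _)
  · have key : ∀ i j, i ≤ B → j ≤ B → i < j → ¬ Par (f ((T ^ i) z0)) (f ((T ^ j) z0)) := by
      intro i j hi hj hij hp
      refine hz0 (Sum.inr ⟨(⟨i, by omega⟩, ⟨j, by omega⟩), hij⟩) ?_
      exact sub_eq_zero.2 (hp _ _)
    intro i j hi hj hij hp
    have hp' : Par (f ((T ^ i) z0)) (f ((T ^ j) z0)) := by
      intro a b
      have h1 := hp a b
      rw [hpow, hpow] at h1
      have h2 : γ (Multiplicative.ofAdd (i : ℤ)) * γ (Multiplicative.ofAdd (j : ℤ)) *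
          (f ((T ^ i) z0) a * f ((T ^ j) z0) b - f ((T ^ i) z0) b * f ((T ^ j) z0) a) = 0 := by
        linear_combination h1
      exact sub_eq_zero.1 ((mul_eq_zero.1 h2).resolve_left (mul_ne_zero (hγ _) (hγ _)))
    rcases lt_or_gt_of_ne hij with h1 | h1
    · exact key i j hi hj h1 hp'
    · exact key j i hj hi h1 (par_symm hp')

end Pool.Agent.V1153.OD
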