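import Pool.Agent.V1153.OD.Fin
import Pool.Agent.V1153.IT.ArC
import Pool.Agent.V1153.UG.Spc
import Pool.Agent.V1153.UG.Conv

/-!
Varieties which are not covered by curves of the punctured line.
-/

set_option autoImplicit false

namespace Pool.Agent.V1153.OD

open MvPolynomial Set Filter Topology Pool.Agent.V1153.IT
open scoped LinearAlgebra.Projectivization
open Pool.Agent.V1153.UG (GmBdd VanGm GmThin DegLe GmRuled Prim)
open Pool.Agent.Y377.ST (ptsOff pev_const Ix entries)

variable {n k : ℕ}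

/-- `f` is the vector of holomorphic homogeneous coordinates of a holomorphic map from `ℂ^k` to the
complement of `Q = 0` in the projective variety with the ideal `I`. -/
structure HolIn (I : Ideal (MvPolynomial (Fin (n + 1)) ℂ)) (Q : MvPolynomial (Fin (n + 1)) ℂ)
    (f : (Fin k → ℂ) → Fin (n + 1) → ℂ) : Prop where
  diff : ∀ j, Differentiable ℂ fun z => f z j
  ne : ∀ z, f z ≠ 0
  mem : ∀ z, ∀ F ∈ I, (∃ m, F.IsHomogeneous m) → eval (f z) F = 0
  off : ∀ z, eval (f z) Q ≠ 0

/-- **Varieties which are not covered by curves of the punctured line.** -/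
theorem orb_thin {I : Ideal (MvPolynomial (Fin (n + 1)) ℂ)} (hI : I.IsPrime)
    {Q : MvPolynomial (Fin (n + 1)) ℂ} {d0 : ℕ} (hQ : Q.IsHomogeneous d0) (hthin : GmThin I Q)
    (s r e : ℕ) :
    ∃ (G : MvPolynomial (Fin (n + 1)) ℂ) (B : ℕ), (∃ m, G.IsHomogeneous m) ∧ G ∉ I ∧
      ∀ (k : ℕ) (f : (Fin k → ℂ) → Fin (n + 1) → ℂ), HolIn I Q f →
        ∀ T : Equiv.Perm (Fin k → ℂ), Differentiable ℂ T → OrbOff s r e Q T f →
          (∀ z, eval (f z) G = 0) ∨ ∃ m, 0 < m ∧ m ≤ B ∧ ∀ z, ∃ c : ℂ, f ((T ^ m) z) = c • f z := by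
  obtain ⟨G, B, hG, hGI, hB⟩ := arith_thin hI hQ hthin s r e
  refine ⟨G, B, hG, hGI, fun k f hf T hT horb => ?_⟩
  have hX : ∀ (c : ℂ) (y : Fin (n + 1) → ℂ),
      (∀ F ∈ I, (∃ m, F.IsHomogeneous m) → eval y F = 0) →
        ∀ F ∈ I, (∃ m, F.IsHomogeneous m) → eval (fun j => c * y j) F = 0 := by
    rintro c y hy F hF ⟨m, hm⟩
    rw [UG.eval_homog hm, hy F hF ⟨m, hm⟩, mul_zero]
  rcases orb_alt (X := fun y => ∀ F ∈ I, (∃ m, F.IsHomogeneous m) → eval y F = 0) hX
    (fun x hx hI' => hB _ x hx hI') hG hT hf.diff hf.ne hf.mem horb with h1 | ⟨m, hm, hmB, h1⟩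
  · exact Or.inl h1
  · exact Or.inr ⟨m, hm, hmB, fun z => (par_iff (hf.ne z)).1 (h1 z)⟩

/-- the family of points of a curve -/
theorem iter_curve' {D N : ℕ} {I : Ideal (MvPolynomial (Fin (n + 1)) ℂ)}
    {Q : MvPolynomial (Fin (n + 1)) ℂ} {q : ℕ} (hq : q ≤ D) (hQ : Q.IsHomogeneous q)
    {P : Fin (n + 1) → Polynomial ℂ} (hP : GmBdd I Q N P) (u : Multiplicative ℤ → ℂ)
    (hu : ∀ h, u h ≠ 0) (humul : ∀ g h, u (g * h) = u g * u h) :
    IterOff 1 1 (D * N + N) Q fun (h : Multiplicative ℤ) j => (P j).eval (u h) := by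
  classical
  obtain ⟨c, κ, hc, hκ⟩ := hP.off
  have hdQ : (aeval P Q : Polynomial ℂ).natDegree ≤ q * N := by
    rw [aeval_def, eval₂_eq]
    refine Polynomial.natDegree_sum_le_of_forall_le _ _ fun u hu => ?_
    refine Polynomial.natDegree_mul_le.trans ?_
    have h1 : (algebraMap ℂ (Polynomial ℂ) (coeff u Q)).natDegree = 0 :=
      Polynomial.natDegree_C _
    rw [h1, zero_add]
    refine (Polynomial.natDegree_prod_le _ _).trans ?_
    have h2 := hQ (mem_support_iff.1 hu)
    have h3 : ∑ i ∈ u.support, u i = q := by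
      rw [← h2, Finsupp.weight_apply, Finsupp.sum]
      simp
    calc ∑ i ∈ u.support, (P i ^ u i).natDegree ≤ ∑ i ∈ u.support, u i * N :=
          Finset.sum_le_sum fun i _ => Polynomial.natDegree_pow_le.trans
            (Nat.mul_le_mul_left _ (hP.deg i))
      _ = q * N := by rw [← Finset.sum_mul, h3]
  have hκ2 : κ ≤ D * N + N := by
    rw [hκ, Polynomial.natDegree_C_mul_X_pow _ _ hc] at hdQ
    have := Nat.mul_le_mul_right N hq
    omega
  have hQe : ∀ h, eval (fun j => (P j).eval (u h)) Q = c * u h ^ κ := by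
    intro h
    rw [← UG.eval_aeval, hκ, Polynomial.eval_mul, Polynomial.eval_C, Polynomial.eval_pow,
      Polynomial.eval_X]
  refine ⟨fun h => ?_, fun _ h => fun _ _ => u h, fun _ h => fun _ _ => (u h)⁻¹, ⟨?_, ?_⟩, ?_⟩
  · rw [hQe]
    exact mul_ne_zero hc (pow_ne_zero _ (hu h))
  · intro l h
    ext i j
    rw [Matrix.mul_apply, Fin.sum_univ_one, mul_inv_cancel₀ (hu h), Subsingleton.elim i j,
      Matrix.one_apply_eq]
  · intro l g i j
    refine ⟨fun m => if m = 0 then u g else 0, fun h => ?_⟩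
    rw [pev_const, Matrix.mul_apply, Fin.sum_univ_one, humul, mul_assoc,
      mul_inv_cancel₀ (hu h), mul_one]
  · intro j
    refine Fin.cases ?_ (fun j => ?_) j
    · obtain ⟨c', hc'⟩ := pev_poly (e := D * N + N) (Polynomial.C c⁻¹ * Polynomial.X ^ κ)
        ((Polynomial.natDegree_C_mul_X_pow_le _ _).trans hκ2) ((0, false, 0, 0) : Ix 1 1)
      refine ⟨c', fun h => ?_⟩
      change (eval (fun j => (P j).eval (u h)) Q)⁻¹ = _
      rw [← hc', hQe, mul_inv, Polynomial.eval_mul, Polynomial.eval_C,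
        Polynomial.eval_pow, Polynomial.eval_X, ← inv_pow]
      rfl
    · obtain ⟨c', hc'⟩ := pev_poly (e := D * N + N) (P j)
        ((hP.deg j).trans (Nat.le_add_left _ _)) ((0, true, 0, 0) : Ix 1 1)
      refine ⟨c', fun h => ?_⟩
      change (P j).eval (u h) = _
      rw [← hc']
      rfl

/-- the primitive curve is of bounded degree -/
theorem prim_bdd {I : Ideal (MvPolynomial (Fin (n + 1)) ℂ)}
    {Q : MvPolynomial (Fin (n + 1)) ℂ} {d0 : ℕ} (hQ : Q.IsHomogeneous d0) {N : ℕ}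
    {P : Fin (n + 1) → Polynomial ℂ} (h : GmBdd I Q N P) {g : Polynomial ℂ}
    {P' : Fin (n + 1) → Polynomial ℂ} (hg : g ≠ 0) (hPP : ∀ j, P j = g * P' j)
    (hpr : Prim I Q P') : GmBdd I Q N P' := by
  obtain ⟨s, t, j, l, -, -, hst⟩ := hpr.nc
  refine ⟨fun j => ?_, fun F hF hFh => ?_, ?_, ⟨s, t, j, l, hst⟩⟩
  · by_cases h0 : P' j = 0
    · rw [h0, Polynomial.natDegree_zero]
      exact Nat.zero_le _
    · have h1 := h.deg j
      rw [hPP j, Polynomial.natDegree_mul hg h0] at h1
      omega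
  · apply Polynomial.funext
    intro t
    rw [UG.eval_aeval, Polynomial.eval_zero]
    exact hpr.mem t F hF hFh
  · obtain ⟨c, κ, hc, hκ⟩ := h.off
    have h1 : g ^ d0 * aeval P' Q = Polynomial.C c * Polynomial.X ^ κ := by
      rw [← hκ]
      apply Polynomial.funext
      intro t
      rw [Polynomial.eval_mul, Polynomial.eval_pow, UG.eval_aeval, UG.eval_aeval,
        ← UG.eval_homog hQ]
      congr 2
      funext j
      rw [hPP, Polynomial.eval_mul]
    have h2 : aeval P' Q ∣ (Polynomial.X : Polynomial ℂ) ^ κ := by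
      refine ⟨Polynomial.C c⁻¹ * g ^ d0, ?_⟩
      have h3 : Polynomial.C c⁻¹ * (Polynomial.C c * Polynomial.X ^ κ) =
          (Polynomial.X : Polynomial ℂ) ^ κ := by
        rw [← mul_assoc, ← Polynomial.C_mul, inv_mul_cancel₀ hc, Polynomial.C_1, one_mul]
      rw [← h3, ← h1]
      ring
    obtain ⟨i, -, hi⟩ := (dvd_prime_pow Polynomial.prime_X κ).1 h2
    obtain ⟨u, hu⟩ := hi.symm
    obtain ⟨a, ha, hau⟩ := Polynomial.isUnit_iff.1 u.isUnit
    refine ⟨a, i, ha.ne_zero, ?_⟩
    rw [← hu, ← hau, mul_comm]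

theorem shift_zpow (z : Fin 1 → ℂ) (a : ℤ) :
    ((Equiv.addRight fun _ : Fin 1 => (1 : ℂ)) ^ a) z = z + fun _ => (a : ℂ) := by
  have h1 : ∀ (m : ℕ) (z : Fin 1 → ℂ),
      ((Equiv.addRight fun _ : Fin 1 => (1 : ℂ)) ^ m) z = z + fun _ => (m : ℂ) := by
    intro m z
    rw [shift_pow]
    congr 1
    funext i
    simp
  rcases Int.eq_nat_or_neg a with ⟨m, rfl | rfl⟩
  · rw [zpow_natCast, h1]
    push_cast
    rfl
  · rw [zpow_neg, zpow_natCast, Equiv.Perm.inv_eq_iff_eq, h1]
    funext i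
    simp

/-- the entire curve given by a curve of the punctured line -/
theorem thin_of_shift {I : Ideal (MvPolynomial (Fin (n + 1)) ℂ)}
    {Q : MvPolynomial (Fin (n + 1)) ℂ} {d0 : ℕ} (hQ : Q.IsHomogeneous d0)
    (h : ∀ s r e : ℕ, ∃ G : MvPolynomial (Fin (n + 1)) ℂ, (∃ m, G.IsHomogeneous m) ∧ G ∉ I ∧
      ∀ f : (Fin 1 → ℂ) → Fin (n + 1) → ℂ, HolIn I Q f →
        OrbOff s r e Q (Equiv.addRight fun _ => 1) f →
          (∀ z, eval (f z) G = 0) ∨ ∃ m : ℕ, 0 < m ∧
            ∀ z, ∃ c : ℂ, f (z + fun _ => (m : ℂ)) = c • f z) : GmThin I Q := by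
  classical
  intro N
  obtain ⟨G, hG, hGI, hall⟩ := h 1 1 (d0 * N + N)
  refine ⟨G, hG, hGI, fun P hP t => ?_⟩
  obtain ⟨γ, hγ⟩ := hG
  obtain ⟨g, P', hg, hPP, hpr⟩ := hP.prim hQ
  have hP' : GmBdd I Q N P' := prim_bdd hQ hP hg hPP hpr
  refine UG.vanish_P hPP hγ (fun t ht => ?_) t
  -- the entire curve
  let f : (Fin 1 → ℂ) → Fin (n + 1) → ℂ := fun z j => (P' j).eval (Complex.exp (z 0))
  have hfd : ∀ j, Differentiable ℂ fun z => f z j := by
    intro j
    have h1 : Differentiable ℂ fun z : Fin 1 → ℂ => Complex.exp (z 0) := by fun_prop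
    exact (P' j).differentiable.comp h1
  have hf : HolIn I Q f := by
    refine ⟨hfd, fun z h0 => ?_, fun z F hF hFh => hpr.mem _ F hF hFh,
      fun z => hpr.off _ (Complex.exp_ne_zero _)⟩
    obtain ⟨j, hj⟩ := hpr.ne (Complex.exp (z 0))
    exact hj (congrFun h0 j)
  have horb : OrbOff 1 1 (d0 * N + N) Q (Equiv.addRight fun _ => 1) f := by
    intro z
    refine ⟨fun _ => 1, fun _ => one_ne_zero, ?_⟩
    have h1 := iter_curve' le_rfl hQ (hP'.scale (Complex.exp_ne_zero (z 0)))
      (fun h => Complex.exp ((Multiplicative.toAdd h : ℤ) : ℂ)) (fun h => Complex.exp_ne_zero _)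
      (fun g h => by rw [toAdd_mul, Int.cast_add, Complex.exp_add])
    have h2 : (fun (h : Multiplicative ℤ) j => (1 : ℂ) *
        f (((Equiv.addRight fun _ : Fin 1 => (1 : ℂ)) ^ (Multiplicative.toAdd h)) z) j) =
        fun (h : Multiplicative ℤ) j => ((P' j).comp (Polynomial.C (Complex.exp (z 0)) *
          Polynomial.X)).eval (Complex.exp ((Multiplicative.toAdd h : ℤ) : ℂ)) := by
      funext h j
      have h3 : ∀ a : ℤ, ((Equiv.addRight fun _ : Fin 1 => (1 : ℂ)) ^ a) z =
          z + fun _ => (a : ℂ) := by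
        intro a
        exact shift_zpow z a
      rw [one_mul, h3, Polynomial.eval_comp, Polynomial.eval_mul, Polynomial.eval_C,
        Polynomial.eval_X, ← Complex.exp_add]
      rfl
    rw [h2]
    exact h1
  rcases hall f hf horb with h1 | ⟨m, hm, h1⟩
  · have h2 := h1 fun _ => Complex.log t
    change eval (fun j => (P' j).eval (Complex.exp (Complex.log t))) G = 0 at h2
    rwa [Complex.exp_log ht] at h2
  · exfalso
    obtain ⟨s, t, j, l, hs, ht, hst⟩ := hpr.nc
    apply hst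
    have hq : ∀ i : ℕ, 0 < i → Complex.exp (m : ℂ) ^ i ≠ 1 := by
      intro i hi h2
      rw [← Complex.exp_nat_mul] at h2
      have h3 := congrArg (fun w : ℂ => ‖w‖) h2
      simp only [Complex.norm_exp, norm_one] at h3
      have h4 : ((i : ℂ) * (m : ℂ)).re = (i : ℝ) * m := by simp
      rw [h4] at h3
      have h5 : (0 : ℝ) < (i : ℝ) * m := by positivity
      have h6 := Real.add_one_lt_exp h5.ne'
      linarith
    have h2 : ∀ w, Par (fun j => (P' j).eval (Complex.exp (m : ℂ) * w))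
        (fun j => (P' j).eval w) := by
      have h3 : ∀ w, w ≠ 0 → Par (fun j => (P' j).eval (Complex.exp (m : ℂ) * w))
          (fun j => (P' j).eval w) := by
        intro w hw
        have h4 : Par (f ((fun _ => Complex.log w) + fun _ => (m : ℂ)))
          (f fun _ => Complex.log w) :=
            (par_iff (x := f ((fun _ => Complex.log w) + fun _ => (m : ℂ)))
              (hf.ne fun _ => Complex.log w)).2 (h1 fun _ => Complex.log w)
        change Par (fun j => (P' j).eval (Complex.exp (Complex.log w + (m : ℂ))))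
          (fun j => (P' j).eval (Complex.exp (Complex.log w))) at h4
        rwa [Complex.exp_add, Complex.exp_log hw, mul_comm w] at h4
      intro w i j'
      have hc : Continuous fun w => (P' i).eval (Complex.exp (m : ℂ) * w) * (P' j').eval w -
          (P' j').eval (Complex.exp (m : ℂ) * w) * (P' i).eval w := by
        have hc0 : Continuous fun w : ℂ => Complex.exp (m : ℂ) * w := by fun_prop
        exact (((P' i).continuous.comp hc0).mul (P' j').continuous).sub
          (((P' j').continuous.comp hc0).mul (P' i).continuous)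
      exact sub_eq_zero.1 (UG.cancel_id hc (fun w hw => sub_eq_zero.2 (h3 w hw i j')) w)
    exact mul_const (f := fun w j => (P' j).eval w) (fun j => (P' j).differentiable)
      (fun w h0 => by
        obtain ⟨j, hj⟩ := hpr.ne w
        exact hj (congrFun h0 j)) hq h2 s t j l

end Pool.Agent.V1153.OD
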