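import Pool.Agent.V1153.OD.Orb
import Pool.Agent.TH143.EL.Wp

/-!
Translations and multiplications.
-/

set_option autoImplicit false

namespace Pool.Agent.V1153.OD

open MvPolynomial Set Filter Topology Pool.Agent.V1153.IT
open scoped LinearAlgebra.Projectivization
open Pool.Agent.V1153.UG (GmBdd VanGm GmThin DegLe)
open Pool.Agent.Y377.ST (ptsOff)
open Pool.Agent.TH143.EL (HolMap InV Rep TorusMapsIn ratCurves_of_torus)
open Pool.Agent.TH143.HE (RatCurvesIn NonConst IsPtP)

variable {n k : ℕ}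

/-- `f` is the vector of holomorphic homogeneous coordinates of a holomorphic map from `ℂ^k` to the
complement of `Q = 0` in the closed subset of the projective space given by the forms in `E`. -/
structure HolOff (E : Set (MvPolynomial (Fin (n + 1)) ℂ)) (Q : MvPolynomial (Fin (n + 1)) ℂ)
    (f : (Fin k → ℂ) → Fin (n + 1) → ℂ) : Prop where
  diff : ∀ j, Differentiable ℂ fun z => f z j
  ne : ∀ z, f z ≠ 0
  mem : ∀ z, ∀ F ∈ E, eval (f z) F = 0
  off : ∀ z, eval (f z) Q ≠ 0

theorem par_iff {x y : Fin (n + 1) → ℂ} (hy : y ≠ 0) : Par x y ↔ ∃ c : ℂ, x = c • y := by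
  constructor
  · intro h
    obtain ⟨v, hv⟩ := Function.ne_iff.1 hy
    have hv' : y v ≠ 0 := hv
    refine ⟨x v / y v, ?_⟩
    funext u
    rw [Pi.smul_apply, smul_eq_mul, div_mul_eq_mul_div, eq_div_iff hv']
    exact h u v
  · rintro ⟨c, rfl⟩ i j
    simp only [Pi.smul_apply, smul_eq_mul]
    ring

/-- the period of a map with values in a variety with few curves of the punctured line -/
theorem orb_period (n D s r e : ℕ) : ∃ N : ℕ, ∀ (E : Set (MvPolynomial (Fin (n + 1)) ℂ))
    (Q G : MvPolynomial (Fin (n + 1)) ℂ), DegLe D E Q → (∃ a ≤ D, G.IsHomogeneous a) →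
      VanGm (Ideal.span E) Q N G → ∀ (k : ℕ) (f : (Fin k → ℂ) → Fin (n + 1) → ℂ), HolOff E Q f →
        ∀ T : Equiv.Perm (Fin k → ℂ), Differentiable ℂ T → OrbOff s r e Q T f →
          (∀ z, eval (f z) G = 0) ∨ ∃ m, 0 < m ∧ m ≤ N ∧ ∀ z, Par (f ((T ^ m) z)) (f z) := by
  obtain ⟨N, hN⟩ := arith_family n D s r e
  refine ⟨N, fun E Q G hE hG hV k f hf T hT horb => ?_⟩
  have hG' : ∃ m, G.IsHomogeneous m := by
    obtain ⟨a, -, ha⟩ := hG
    exact ⟨a, ha⟩
  refine orb_alt (X := fun y => ∀ F ∈ E, eval y F = 0) ?_ ?_ hG' hT hf.diff hf.ne hf.mem horb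
  · intro c y hy F hF
    obtain ⟨a, -, ha⟩ := hE.eqs F hF
    rw [UG.eval_homog ha, hy F hF, mul_zero]
  · intro x hx hI
    refine hN ℂ (RingHom.id ℂ) E Q G hE.eqs hE.off hG ?_ _ x hx hI
    have h1 : (map (RingHom.id ℂ) : MvPolynomial (Fin (n + 1)) ℂ → _) '' E = E := by
      rw [show (map (RingHom.id ℂ) : MvPolynomial (Fin (n + 1)) ℂ → _) = id from
        funext fun F => MvPolynomial.map_id F, Set.image_id]
    rw [h1, MvPolynomial.map_id, MvPolynomial.map_id]
    exact hV

/-- translations -/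
theorem shift_pow (ω z : Fin k → ℂ) (m : ℕ) : ((Equiv.addRight ω) ^ m) z = z + (m : ℝ) • ω := by
  induction m with
  | zero => simp
  | succ m ih =>
    rw [pow_succ', Equiv.Perm.mul_apply, ih, Equiv.coe_addRight]
    push_cast
    rw [add_smul, one_smul, add_assoc]

/-- **Maps which are periodic up to multiples with respect to all elements of a basis.** -/
theorem lattice_of {f : (Fin k → ℂ) → Fin (n + 1) → ℂ} (hf0 : ∀ z, f z ≠ 0)
    {ω : Fin (2 * k) → Fin k → ℂ} (hω : LinearIndependent ℝ ω)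
    (h : ∀ i, ∃ m : ℕ, 0 < m ∧ ∀ z, Par (f (z + (m : ℝ) • ω i)) (f z)) :
    ∃ L : AddSubgroup (Fin k → ℂ), DiscreteTopology L ∧
      Submodule.span ℝ (L : Set (Fin k → ℂ)) = ⊤ ∧
        ∀ z, ∀ l ∈ L, ∃ c : ℂ, f (z + l) = c • f z := by
  classical
  choose m hm hmz using h
  have hli : LinearIndependent ℝ fun i => (m i : ℝ) • ω i := by
    have h1 := hω.units_smul fun i => Units.mk0 (m i : ℝ) (by
      have := hm i
      positivity)
    exact h1
  have hcard : Fintype.card (Fin (2 * k)) = Module.finrank ℝ (Fin k → ℂ) := by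
    rw [Fintype.card_fin, Module.finrank_pi_fintype]
    simp [Complex.finrank_real_complex, mul_comm]
  let b := basisOfLinearIndependentOfCardEqFinrank' (fun i => (m i : ℝ) • ω i) hli hcard
  have hb : ∀ i, b i = (m i : ℝ) • ω i := fun i => by
    change basisOfLinearIndependentOfCardEqFinrank' _ hli hcard i = _
    rw [coe_basisOfLinearIndependentOfCardEqFinrank']
  refine ⟨(Submodule.span ℤ (Set.range b)).toAddSubgroup, inferInstance, ?_, ?_⟩
  · rw [Submodule.coe_toAddSubgroup]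
    exact ZSpan.span_top b
  · intro z l hl
    rw [Submodule.mem_toAddSubgroup] at hl
    induction hl using Submodule.span_induction generalizing z with
    | mem x hx =>
      obtain ⟨i, rfl⟩ := hx
      rw [hb]
      exact (par_iff (hf0 z)).1 (hmz i z)
    | zero => exact ⟨1, by rw [add_zero, one_smul]⟩
    | add x y _ _ hx hy =>
      obtain ⟨c, hc⟩ := hx (z + y)
      obtain ⟨c', hc'⟩ := hy z
      refine ⟨c * c', ?_⟩
      rw [mul_smul, ← hc', ← hc]
      congr 1
      abel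
    | smul a x _ hx =>
      have hneg : ∀ z, ∃ c : ℂ, f (z + -x) = c • f z := by
        intro z
        obtain ⟨c, hc⟩ := hx (z + -x)
        rw [neg_add_cancel_right] at hc
        have hc0 : c ≠ 0 := by
          rintro rfl
          rw [zero_smul] at hc
          exact hf0 z hc
        refine ⟨c⁻¹, ?_⟩
        rw [hc, smul_smul, inv_mul_cancel₀ hc0, one_smul]
      have hnat : ∀ (x : Fin k → ℂ), (∀ z, ∃ c : ℂ, f (z + x) = c • f z) → ∀ (a : ℕ) (z),
          ∃ c : ℂ, f (z + (a : ℤ) • x) = c • f z := by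
        intro x hx a
        induction a with
        | zero =>
          intro z
          exact ⟨1, by rw [Nat.cast_zero, zero_smul, add_zero, one_smul]⟩
        | succ a ih =>
          intro z
          obtain ⟨c, hc⟩ := hx (z + (a : ℤ) • x)
          obtain ⟨c', hc'⟩ := ih z
          refine ⟨c * c', ?_⟩
          rw [mul_smul, ← hc', ← hc, Nat.cast_succ, add_smul, one_smul, add_assoc]
      rcases Int.eq_nat_or_neg a with ⟨a', rfl | rfl⟩
      · exact hnat x hx a' z
      · obtain ⟨c, hc⟩ := hnat (-x) hneg a' z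
        refine ⟨c, ?_⟩
        rw [← hc, neg_smul, smul_neg]

/-- **Multiplications.** -/
theorem mul_const {f : ℂ → Fin (n + 1) → ℂ} (hf : ∀ j, Differentiable ℂ fun z => f z j)
    (hf0 : ∀ z, f z ≠ 0) {q : ℂ} (hq : ∀ m : ℕ, 0 < m → q ^ m ≠ 1)
    (h : ∀ z, Par (f (q * z)) (f z)) (z w : ℂ) : Par (f z) (f w) := by
  classical
  obtain ⟨l, hl⟩ := Function.ne_iff.1 (hf0 0)
  have hl' : f 0 l ≠ 0 := hl
  have hcont : ∀ᶠ z in 𝓝 (0 : ℂ), f z l ≠ 0 := (hf l).continuous.continuousAt.eventually_ne hl'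
  have hq0 : Tendsto (fun z : ℂ => q * z) (𝓝 0) (𝓝 0) := by
    have h1 : Continuous fun z : ℂ => q * z := by fun_prop
    have h2 := h1.tendsto 0
    rwa [mul_zero] at h2
  -- the ratios are constant
  have key : ∀ j, ∀ z, f z j * f 0 l = f z l * f 0 j := by
    intro j
    let φ : ℂ → ℂ := fun z => f z j / f z l - f 0 j / f 0 l
    have hφ : AnalyticAt ℂ φ 0 :=
      (((hf j).analyticAt 0).fun_div ((hf l).analyticAt 0) hl').fun_sub analyticAt_const
    have hφq : ∀ᶠ z in 𝓝 (0 : ℂ), φ (q * z) = φ z := by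
      filter_upwards [hcont, hq0.eventually hcont] with z h1 h2
      have h3 := h z j l
      change f (q * z) j / f (q * z) l - _ = f z j / f z l - _
      congr 1
      rw [div_eq_div_iff h2 h1, h3]
      ring
    have hφ0 : ∀ᶠ z in 𝓝 (0 : ℂ), φ z = 0 := by
      by_contra hne
      obtain ⟨i, ψ, hψ, hψ0, hev⟩ := (hφ.exists_eventuallyEq_pow_smul_nonzero_iff).2 hne
      have hi : 0 < i := by
        by_contra hi0
        have hi1 : i = 0 := by omega
        have h1 := hev.self_of_nhds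
        rw [hi1, pow_zero, one_smul] at h1
        apply hψ0
        rw [← h1]
        exact sub_self _
      have h1 : ∀ᶠ z in 𝓝 (0 : ℂ), q * z - 0 = q * z → (q * z) ^ i * ψ (q * z) = z ^ i * ψ z := by
        filter_upwards [hφq, hev, hq0.eventually hev] with z h2 h3 h4 _
        rw [sub_zero, smul_eq_mul] at h3 h4
        rw [← h3, ← h4, h2]
      have h2 : ∀ᶠ z in 𝓝[≠] (0 : ℂ), q ^ i * ψ (q * z) = ψ z := by
        filter_upwards [nhdsWithin_le_nhds h1, self_mem_nhdsWithin] with z h3 hz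
        have h4 := h3 (sub_zero _)
        rw [mul_pow] at h4
        have h5 : z ^ i ≠ 0 := pow_ne_zero _ hz
        apply mul_left_cancel₀ h5
        rw [← h4]
        ring
      have h3 : Tendsto (fun z => q ^ i * ψ (q * z)) (𝓝[≠] (0 : ℂ)) (𝓝 (q ^ i * ψ 0)) := by
        have h4 : Tendsto (fun z => ψ (q * z)) (𝓝[≠] (0 : ℂ)) (𝓝 (ψ 0)) :=
          hψ.continuousAt.tendsto.comp (hq0.mono_left nhdsWithin_le_nhds)
        exact h4.const_mul _
      have h4 : Tendsto ψ (𝓝[≠] (0 : ℂ)) (𝓝 (ψ 0)) :=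
        hψ.continuousAt.tendsto.mono_left nhdsWithin_le_nhds
      have h5 : q ^ i * ψ 0 = ψ 0 := tendsto_nhds_unique (h3.congr' h2) h4
      apply hq i hi
      have h6 : (q ^ i - 1) * ψ 0 = 0 := by
        rw [sub_mul, h5, one_mul, sub_self]
      exact sub_eq_zero.1 ((mul_eq_zero.1 h6).resolve_right hψ0)
    have h1 : ∀ᶠ z in 𝓝 (0 : ℂ), f z j * f 0 l - f z l * f 0 j = 0 := by
      filter_upwards [hφ0, hcont] with z h2 h3
      have h4 : f z j / f z l = f 0 j / f 0 l := sub_eq_zero.1 h2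
      rw [div_eq_div_iff h3 hl'] at h4
      rw [h4]
      ring
    have h2 : AnalyticOnNhd ℂ (fun z => f z j * f 0 l - f z l * f 0 j) univ := fun x _ =>
      (((hf j).analyticAt x).fun_mul analyticAt_const).fun_sub
        (((hf l).analyticAt x).fun_mul analyticAt_const)
    intro z
    exact sub_eq_zero.1 (h2.eqOn_zero_of_preconnected_of_eventuallyEq_zero isPreconnected_univ
      (mem_univ 0) h1 (mem_univ z))
  intro i j
  have h1 : f 0 l * f 0 l * (f z i * f w j - f z j * f w i) = 0 := by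
    linear_combination f 0 l * f w j * key i z + f z l * f 0 i * key j w -
      f 0 l * f w i * key j z - f z l * f 0 j * key i w
  exact sub_eq_zero.1 ((mul_eq_zero.1 h1).resolve_left (mul_ne_zero hl' hl'))

/-- projective varieties without complex tori contain no curves of the punctured line -/
theorem no_gm {E : Set (MvPolynomial (Fin (n + 1)) ℂ)}
    (hE : ∀ F ∈ E, ∃ a, F.IsHomogeneous a)
    (hT : ∀ ω₁ ω₂ : ℂ, LinearIndependent ℝ ![ω₁, ω₂] → ∀ t : ℂ → ℙ ℂ (Fin (n + 1) → ℂ),
      HolMap t → (∀ z, t (z + ω₁) = t z) → (∀ z, t (z + ω₂) = t z) →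
        (∀ z, ∀ F ∈ E, eval (t z).rep F = 0) → ∀ z w, t z = t w)
    (Q : MvPolynomial (Fin (n + 1)) ℂ) (N : ℕ) (P : Fin (n + 1) → Polynomial ℂ) :
    ¬ GmBdd (Ideal.span E) Q N P := by
  intro hP
  have h1 : TorusMapsIn (Ideal.span E) (⊤ : Ideal (MvPolynomial (Fin (n + 1)) ℂ)) := by
    intro ω₁ ω₂ hind t ht hp1 hp2 hI ⟨z, w, hzw⟩
    exact absurd (hT ω₁ ω₂ hind t ht hp1 hp2 (fun z F hF =>
      hI z F (Ideal.subset_span hF) (hE F hF)) z w) hzw
  obtain ⟨s, t, j, l, hnc⟩ := hP.nc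
  have h2 := ratCurves_of_torus h1 P (fun u G hG hGh => by
    rw [eval₂_id, ← UG.eval_aeval, hP.mem G hG hGh, Polynomial.eval_zero]) ⟨j, l, s, t, hnc⟩ 0 1
      trivial ⟨0, isHomogeneous_one _ _⟩
  rw [eval₂_id, map_one] at h2
  exact one_ne_zero h2

end Pool.Agent.V1153.OD
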